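import Mathlib

set_option autoImplicit false

/-!
Classes of finite soluble groups: Schunck classes, projectors, D-classes, the product and the
join of two classes.  All the definitions follow the problem file.
-/

namespace Pool.Agent.Helper36.Schunck

/-- A class of finite soluble groups, closed under isomorphism. -/
structure SolClass where
  /-- Membership in the class. -/
  Mem : (G : Type) → [Group G] → Prop
  finite_of_mem : ∀ (G : Type) [Group G], Mem G → Finite G
  solvable_of_mem : ∀ (G : Type) [Group G], Mem G → Group.IsSolvable G
  mem_of_iso : ∀ (G H : Type) [Group G] [Group H], (G ≃* H) → Mem G → Mem H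

/-- A group is primitive if it has a maximal subgroup with trivial core. -/
def IsPrimitiveGroup (G : Type) [Group G] : Prop :=
  ∃ M : Subgroup G, IsCoatom M ∧ M.normalCore = ⊥

/-- A Schunck class: closed under epimorphic images, and containing every finite soluble group all
of whose primitive epimorphic images lie in the class. -/
structure IsSchunckClass (X : SolClass) : Prop where
  image : ∀ (G Q : Type) [Group G] [Group Q] (f : G →* Q), Function.Surjective f →
    X.Mem G → X.Mem Q
  prim : ∀ (G : Type) [Group G], Finite G → Group.IsSolvable G →
    (∀ (Q : Type) [Group Q] (f : G →* Q), Function.Surjective f → IsPrimitiveGroup Q → X.Mem Q) →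
    X.Mem G

/-- `H` is a maximal `X`-subgroup of `G`: an `X`-subgroup not properly contained in another
`X`-subgroup. -/
def IsMaximalXSubgroup (X : SolClass) {G : Type} [Group G] (H : Subgroup G) : Prop :=
  X.Mem H ∧ ∀ K : Subgroup G, X.Mem K → H ≤ K → H = K

/-- `H` is an `X`-projector of `G`: the image `HN/N` of `H` is a maximal `X`-subgroup of `G/N` for
every normal subgroup `N` of `G`. -/
def IsProjector (X : SolClass) {G : Type} [Group G] (H : Subgroup G) : Prop :=
  ∀ (N : Subgroup G) [N.Normal], IsMaximalXSubgroup X (H.map (QuotientGroup.mk' N))

/-- A D-class: a Schunck class such that in every finite soluble group every maximal `X`-subgroup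
is an `X`-projector. -/
def IsDClass (X : SolClass) : Prop :=
  IsSchunckClass X ∧ ∀ (G : Type) [Group G], Finite G → Group.IsSolvable G →
    ∀ H : Subgroup G, IsMaximalXSubgroup X H → IsProjector X H

/-- `G` lies in the product class `P Q`: some normal subgroup `N` of `G` lies in `P` and `G/N` lies
in `Q`. -/
def InProduct (P Q : (G : Type) → [Group G] → Prop) (G : Type) [Group G] : Prop :=
  Finite G ∧ Group.IsSolvable G ∧ ∃ (N : Subgroup G) (_ : N.Normal), P N ∧ Q (G ⧸ N)

/-- The class `P` of finite soluble groups satisfies `P P = P`. -/
def SquareEq (P : (G : Type) → [Group G] → Prop) : Prop :=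
  ∀ (G : Type) [Group G], InProduct P P G ↔ P G

/-- `G` lies in the join `X ∨ Y = ⟨X, Y⟩`: the finite soluble group `G` is generated by `S` and `T`
whenever `S` is an `X`-projector and `T` is a `Y`-projector of `G`. -/
def InJoin (X Y : SolClass) (G : Type) [Group G] : Prop :=
  Finite G ∧ Group.IsSolvable G ∧ ∀ S T : Subgroup G, IsProjector X S → IsProjector Y T → S ⊔ T = ⊤

end Pool.Agent.Helper36.Schunck
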