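import Mathlib
import Pool.Agent.Helper36.Schunck.Defs

set_option autoImplicit false

namespace Pool.Agent.Helper36.Schunck

/-! ### Primitive epimorphic images -/

/-- The quotient of a group by the core of a maximal subgroup is primitive. -/
theorem primitive_quotient_core {G : Type} [Group G] (M : Subgroup G) (hM : IsCoatom M) :
    IsPrimitiveGroup (G ⧸ M.normalCore) := by
  have hs : Function.Surjective (QuotientGroup.mk' M.normalCore) :=
    QuotientGroup.mk'_surjective _
  have hk : (QuotientGroup.mk' M.normalCore).ker ≤ M := by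
    rw [QuotientGroup.ker_mk']
    exact M.normalCore_le
  have hcm : (M.map (QuotientGroup.mk' M.normalCore)).comap (QuotientGroup.mk' M.normalCore) = M :=
    Subgroup.comap_map_eq_self hk
  refine ⟨M.map (QuotientGroup.mk' M.normalCore), ⟨?_, ?_⟩, ?_⟩
  · intro h
    apply hM.1
    rw [← hcm, h, Subgroup.comap_top]
  · intro P hP
    have h1 : M < P.comap (QuotientGroup.mk' M.normalCore) := by
      refine lt_of_le_of_ne ?_ ?_
      · exact hcm.symm.le.trans (Subgroup.comap_mono hP.le)
      · intro h
        apply hP.ne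
        rw [← Subgroup.map_comap_eq_self_of_surjective hs P, ← h]
    have h2 := hM.2 _ h1
    rw [← Subgroup.map_comap_eq_self_of_surjective hs P, h2]
    exact Subgroup.map_top_of_surjective _ hs
  · set D := (M.map (QuotientGroup.mk' M.normalCore)).normalCore with hD
    have h1 : D.comap (QuotientGroup.mk' M.normalCore) ≤ M := by
      calc D.comap (QuotientGroup.mk' M.normalCore)
          ≤ (M.map (QuotientGroup.mk' M.normalCore)).comap (QuotientGroup.mk' M.normalCore) :=
            Subgroup.comap_mono (Subgroup.normalCore_le _)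
        _ = M := hcm
    have h2 : D.comap (QuotientGroup.mk' M.normalCore) ≤ M.normalCore := by
      have : (D.comap (QuotientGroup.mk' M.normalCore)).Normal :=
        Subgroup.Normal.comap (Subgroup.normalCore_normal _) _
      exact Subgroup.normal_le_normalCore.mpr h1
    rw [← Subgroup.map_comap_eq_self_of_surjective hs D, eq_bot_iff]
    calc (D.comap (QuotientGroup.mk' M.normalCore)).map (QuotientGroup.mk' M.normalCore)
        ≤ M.normalCore.map (QuotientGroup.mk' M.normalCore) := Subgroup.map_mono h2
      _ ≤ ⊥ := by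
        rw [Subgroup.map_le_iff_le_comap, MonoidHom.comap_bot, QuotientGroup.ker_mk']

/-- A nontrivial finite group has a primitive epimorphic image. -/
theorem exists_primitive_image (Q : Type) [Group Q] [Finite Q] (h : Nat.card Q ≠ 1) :
    ∃ M : Subgroup Q, IsCoatom M ∧ IsPrimitiveGroup (Q ⧸ M.normalCore) := by
  have hne : (⊥ : Subgroup Q) ≠ ⊤ := by
    intro h1
    apply h
    have h2 := congrArg (fun S : Subgroup Q => Nat.card S) h1
    simp only [Subgroup.card_bot, Subgroup.card_top] at h2
    exact h2.symm
  obtain ⟨M, hM, -⟩ := (eq_top_or_exists_le_coatom (⊥ : Subgroup Q)).resolve_left hne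
  exact ⟨M, hM, primitive_quotient_core M hM⟩

theorem primitive_of_prime_card (Q : Type) [Group Q] (p : ℕ) (hp : p.Prime)
    (h : Nat.card Q = p) : IsPrimitiveGroup Q := by
  have : Fact p.Prime := ⟨hp⟩
  have : Finite Q := Nat.finite_of_card_ne_zero (by rw [h]; exact hp.ne_zero)
  refine ⟨⊥, ⟨?_, ?_⟩, ?_⟩
  · intro h1
    have h2 := congrArg (fun S : Subgroup Q => Nat.card S) h1
    simp only [Subgroup.card_bot, Subgroup.card_top, h] at h2
    exact hp.ne_one h2.symm
  · intro P hP
    have : Fact (Nat.card Q).Prime := ⟨by rw [h]; exact hp⟩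
    rcases P.eq_bot_or_eq_top_of_prime_card with h1 | h1
    · exact absurd h1 hP.ne'
    · exact h1
  · exact le_bot_iff.mp (Subgroup.normalCore_le _)

theorem primitive_of_iso {G H : Type} [Group G] [Group H] (e : G ≃* H)
    (h : IsPrimitiveGroup G) : IsPrimitiveGroup H := by
  obtain ⟨M, hM, hc⟩ := h
  refine ⟨M.map e.toMonoidHom, ?_, ?_⟩
  · have : (M.map e.toMonoidHom) = e.mapSubgroup M := rfl
    rw [this]
    exact (OrderIso.isCoatom_iff e.mapSubgroup M).mpr hM
  · rw [eq_bot_iff]
    intro x hx
    have h1 : (M.map e.toMonoidHom).normalCore.comap e.toMonoidHom ≤ M.normalCore := by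
      have : ((M.map e.toMonoidHom).normalCore.comap e.toMonoidHom).Normal :=
        Subgroup.Normal.comap (Subgroup.normalCore_normal _) _
      apply Subgroup.normal_le_normalCore.mpr
      intro y hy
      have h2 := Subgroup.normalCore_le _ hy
      obtain ⟨z, hz, hzy⟩ := h2
      have : z = y := e.injective hzy
      rw [← this]
      exact hz
    have h3 : e.symm x ∈ M.normalCore := by
      apply h1
      change e (e.symm x) ∈ (M.map e.toMonoidHom).normalCore
      rw [e.apply_symm_apply]
      exact hx
    rw [hc] at h3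
    have h4 : e.symm x = 1 := h3
    have h5 : x = 1 := by
      rw [← e.apply_symm_apply x, h4, map_one]
    exact h5

/-! ### The class of `p`-groups -/

/-- The class of finite `p`-groups. -/
def pClass (p : ℕ) [Fact p.Prime] : SolClass where
  Mem G _ := Finite G ∧ IsPGroup p G
  finite_of_mem _ _ h := h.1
  solvable_of_mem G _ h := by
    have := h.1
    have := h.2.isNilpotent
    infer_instance
  mem_of_iso _ _ _ _ e h := by
    have := h.1
    exact ⟨Finite.of_equiv _ e.toEquiv, h.2.of_equiv e⟩

theorem pClass_schunck (p : ℕ) [hp : Fact p.Prime] : IsSchunckClass (pClass p) where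
  image G Q _ _ f hf h := by
    have := h.1
    exact ⟨Finite.of_surjective f hf, h.2.of_surjective f hf⟩
  prim G _ hG _ h := by
    refine ⟨hG, ?_⟩
    obtain ⟨S⟩ : Nonempty (Sylow p G) := inferInstance
    by_cases hS : (S : Subgroup G) = ⊤
    · have := S.2
      rw [hS] at this
      exact this.of_equiv Subgroup.topEquiv
    · exfalso
      obtain ⟨M, hM, hSM⟩ := (eq_top_or_exists_le_coatom (S : Subgroup G)).resolve_left hS
      have h1 := h (G ⧸ M.normalCore) (QuotientGroup.mk' _) (QuotientGroup.mk'_surjective _)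
        (primitive_quotient_core M hM)
      obtain ⟨k, hk⟩ := IsPGroup.iff_card.mp h1.2
      have h2 : M.index ∣ p ^ k := by
        rw [← hk]
        exact Subgroup.index_dvd_of_le (Subgroup.normalCore_le M)
      have h3 : M.index ∣ (S : Subgroup G).index := Subgroup.index_dvd_of_le hSM
      have h4 : ¬ p ∣ (S : Subgroup G).index := S.not_dvd_index
      have h5 : ¬ p ∣ M.index := fun h => h4 (h.trans h3)
      have h6 : M.index.Coprime (p ^ k) :=
        (Nat.Coprime.pow_right k ((Nat.Prime.coprime_iff_not_dvd hp.out).mpr h5).symm)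
      have h7 : M.index = 1 := Nat.eq_one_of_dvd_coprimes h6 dvd_rfl h2
      exact hM.1 (Subgroup.index_eq_one.mp h7)

theorem pClass_square (p : ℕ) [hp : Fact p.Prime] : SquareEq (pClass p).Mem := by
  intro G _
  constructor
  · rintro ⟨hG, -, N, hN, h1, h2⟩
    refine ⟨hG, ?_⟩
    obtain ⟨a, ha⟩ := IsPGroup.iff_card.mp h1.2
    obtain ⟨b, hb⟩ := IsPGroup.iff_card.mp h2.2
    apply IsPGroup.of_card (n := b + a)
    rw [Subgroup.card_eq_card_quotient_mul_card_subgroup N, ha, hb, pow_add]
  · intro h
    refine ⟨h.1, (pClass p).solvable_of_mem G h, ⊥, inferInstance, ?_, ?_⟩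
    · exact ⟨inferInstance, IsPGroup.of_bot⟩
    · have := h.1
      exact ⟨inferInstance, h.2.to_quotient ⊥⟩

/-! ### Projectors -/

/-- A projector is a maximal `X`-subgroup. -/
theorem IsProjector.isMaximal {X : SolClass} {G : Type} [Group G] {H : Subgroup G}
    (h : IsProjector X H) : IsMaximalXSubgroup X H := by
  have h1 := h ⊥
  have hinj : Function.Injective (QuotientGroup.mk' (⊥ : Subgroup G)) := by
    rw [← MonoidHom.ker_eq_bot_iff, QuotientGroup.ker_mk']
  refine ⟨X.mem_of_iso _ _ (H.equivMapOfInjective _ hinj).symm h1.1, ?_⟩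
  intro K hK hHK
  have h2 := h1.2 (K.map (QuotientGroup.mk' ⊥))
    (X.mem_of_iso _ _ (K.equivMapOfInjective _ hinj) hK) (Subgroup.map_mono hHK)
  exact Subgroup.map_injective hinj h2

/-- In a Schunck class the image of an `X`-subgroup is an `X`-subgroup. -/
theorem mem_map {X : SolClass} (hX : IsSchunckClass X) {G Q : Type} [Group G] [Group Q]
    (f : G →* Q) (H : Subgroup G) (h : X.Mem H) : X.Mem (H.map f) :=
  hX.image H (H.map f) (f.subgroupMap H) (f.subgroupMap_surjective H) h

end Pool.Agent.Helper36.Schunck
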