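import Mathlib
import Pool.Agent.Helper36.Schunck.Gen

set_option autoImplicit false

namespace Pool.Agent.Helper36.Schunck

/-- The group `3^4 : F_20` of order `1620`: pairs of an affine map `x ↦ a x + b` of the integers
modulo 5 and a function `v` from the integers modulo 5 to the integers modulo 3 with sum zero. -/
@[ext] structure GG where
  /-- linear part -/
  a : (ZMod 5)ˣ
  /-- translation part -/
  b : ZMod 5
  /-- vector part -/
  v : ZMod 5 → ZMod 3
  hv : ∑ x, v x = 0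

theorem sum_aff (a : (ZMod 5)ˣ) (b : ZMod 5) (v : ZMod 5 → ZMod 3) :
    ∑ x, v (a * x + b) = ∑ x, v x :=
  Equiv.sum_comp ((Units.mulLeft a).trans (Equiv.addRight b)) v

namespace GG

instance : Mul GG where
  mul g h := ⟨g.a * h.a, g.a * h.b + g.b, fun x => h.v x + g.v (h.a * x + h.b), by
    rw [Finset.sum_add_distrib, h.hv, sum_aff, g.hv, add_zero]⟩

instance : One GG where
  one := ⟨1, 0, fun _ => 0, by simp⟩

instance : Inv GG where
  inv g := ⟨g.a⁻¹, -(((g.a⁻¹ : (ZMod 5)ˣ) : ZMod 5) * g.b), fun x =>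
    -g.v (((g.a⁻¹ : (ZMod 5)ˣ) : ZMod 5) * x + -(((g.a⁻¹ : (ZMod 5)ˣ) : ZMod 5) * g.b)), by
    rw [Finset.sum_neg_distrib, sum_aff, g.hv, neg_zero]⟩

@[simp] theorem mul_a (g h : GG) : (g * h).a = g.a * h.a := rfl
@[simp] theorem mul_b (g h : GG) : (g * h).b = g.a * h.b + g.b := rfl
@[simp] theorem mul_v (g h : GG) (x : ZMod 5) : (g * h).v x = h.v x + g.v (h.a * x + h.b) := rfl
@[simp] theorem one_a : (1 : GG).a = 1 := rfl
@[simp] theorem one_b : (1 : GG).b = 0 := rfl
@[simp] theorem one_v (x : ZMod 5) : (1 : GG).v x = 0 := rfl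
@[simp] theorem inv_a (g : GG) : (g⁻¹).a = g.a⁻¹ := rfl
@[simp] theorem inv_b (g : GG) : (g⁻¹).b = -(((g.a⁻¹ : (ZMod 5)ˣ) : ZMod 5) * g.b) := rfl
@[simp] theorem inv_v (g : GG) (x : ZMod 5) :
    (g⁻¹).v x = -g.v (((g.a⁻¹ : (ZMod 5)ˣ) : ZMod 5) * x +
      -(((g.a⁻¹ : (ZMod 5)ˣ) : ZMod 5) * g.b)) := rfl

instance : Group GG := Group.ofLeftAxioms
  (by
    intro g h k
    apply GG.ext
    · simp [mul_assoc]
    · simp; ring
    · funext x
      have : ((h.a : ZMod 5) * ((k.a : ZMod 5) * x + k.b) + h.b) =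
        ((h.a : ZMod 5) * (k.a : ZMod 5) * x + ((h.a : ZMod 5) * k.b + h.b)) := by ring
      simp [this, add_assoc])
  (by
    intro g
    apply GG.ext
    · simp
    · simp
    · funext x; simp)
  (by
    intro g
    apply GG.ext
    · simp
    · simp
    · funext x
      have : (((g.a⁻¹ : (ZMod 5)ˣ) : ZMod 5) * ((g.a : ZMod 5) * x + g.b) +
          -(((g.a⁻¹ : (ZMod 5)ˣ) : ZMod 5) * g.b)) = x := by
        have h1 : ((g.a⁻¹ : (ZMod 5)ˣ) : ZMod 5) * (g.a : ZMod 5) = 1 := by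
          rw [← Units.val_mul, inv_mul_cancel, Units.val_one]
        linear_combination x * h1
      simp [this])

/-- The retraction onto the complement. -/
def prj : GG →* GG where
  toFun g := ⟨g.a, g.b, fun _ => 0, by simp⟩
  map_one' := rfl
  map_mul' g h := by
    apply GG.ext
    · rfl
    · rfl
    · funext x
      simp

/-- The normal subgroup of order 81. -/
def N : Subgroup GG := prj.ker

instance : N.Normal := MonoidHom.normal_ker _

/-- The complement `F_20`. -/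
def M : Subgroup GG := prj.range

theorem mem_N {g : GG} : g ∈ N ↔ g.a = 1 ∧ g.b = 0 := by
  constructor
  · intro h
    have h1 : prj g = 1 := h
    exact ⟨congrArg GG.a h1, congrArg GG.b h1⟩
  · rintro ⟨h1, h2⟩
    change prj g = 1
    apply GG.ext
    · exact h1
    · exact h2
    · rfl

theorem mem_M {g : GG} : g ∈ M ↔ ∀ x, g.v x = 0 := by
  constructor
  · rintro ⟨h, rfl⟩ x
    rfl
  · intro h
    refine ⟨g, ?_⟩
    apply GG.ext
    · rfl
    · rfl
    · funext x
      exact (h x).symm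

/-- The element of `N` with given vector. -/
def nn (v : ZMod 5 → ZMod 3) (hv : ∑ x, v x = 0) : GG := ⟨1, 0, v, hv⟩

theorem nn_mem (v : ZMod 5 → ZMod 3) (hv : ∑ x, v x = 0) : nn v hv ∈ N :=
  mem_N.mpr ⟨rfl, rfl⟩

theorem eq_nn {g : GG} (h : g ∈ N) : g = nn g.v g.hv := by
  obtain ⟨h1, h2⟩ := mem_N.mp h
  apply GG.ext
  · exact h1
  · exact h2
  · rfl

theorem N_comm {g h : GG} (hg : g ∈ N) (hh : h ∈ N) : g * h = h * g := by
  obtain ⟨h1, h2⟩ := mem_N.mp hg
  obtain ⟨h3, h4⟩ := mem_N.mp hh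
  apply GG.ext
  · simp [h1, h3]
  · simp [h1, h2, h3, h4]
  · funext x
    simp [h1, h2, h3, h4, add_comm]

theorem M_inf_N : M ⊓ N = ⊥ := by
  rw [eq_bot_iff]
  rintro g ⟨h1, h2⟩
  obtain ⟨h3, h4⟩ := mem_N.mp h2
  have h5 := mem_M.mp h1
  change g = 1
  apply GG.ext
  · exact h3
  · exact h4
  · funext x
    exact h5 x

/-- Every element is the product of its projection to `M` and an element of `N`. -/
theorem decomp (g : GG) : prj g ∈ M ∧ (prj g)⁻¹ * g ∈ N ∧ g = prj g * ((prj g)⁻¹ * g) := by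
  refine ⟨⟨g, rfl⟩, ?_, by group⟩
  change prj ((prj g)⁻¹ * g) = 1
  rw [map_mul, map_inv]
  have : prj (prj g) = prj g := rfl
  rw [this, inv_mul_cancel]

theorem M_sup_N : M ⊔ N = ⊤ := by
  rw [eq_top_iff]
  intro g _
  obtain ⟨h1, h2, h3⟩ := decomp g
  rw [h3]
  exact (M ⊔ N).mul_mem ((le_sup_left : M ≤ M ⊔ N) h1) ((le_sup_right : N ≤ M ⊔ N) h2)

/-- The translation by one. -/
def tau : GG := ⟨1, 1, fun _ => 0, by simp⟩

theorem tau_mem_M : tau ∈ M := mem_M.mpr (fun _ => rfl)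

theorem tau_pow (k : ℕ) : tau ^ k = ⟨1, (k : ZMod 5), fun _ => 0, by simp⟩ := by
  induction k with
  | zero =>
    apply GG.ext
    · rfl
    · simp
    · rfl
  | succ k ih =>
    rw [pow_succ, ih]
    apply GG.ext
    · simp [tau]
    · simp [tau, add_comm]
    · funext x
      simp [tau]

theorem orderOf_tau : orderOf tau = 5 := by
  have : Fact (Nat.Prime 5) := ⟨by norm_num⟩
  apply orderOf_eq_prime
  · rw [tau_pow]
    rfl
  · intro h
    have := congrArg GG.b h
    simp [tau] at this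

/-- If `(1,b,0)` lies in a subgroup with `b ≠ 0`, so does `tau`. -/
theorem tau_mem_of {K : Subgroup GG} {g : GG} (hg : g ∈ K) (ha : g.a = 1) (hb : g.b ≠ 0)
    (hv : ∀ x, g.v x = 0) : tau ∈ K := by
  have h1 : g = tau ^ g.b.val := by
    rw [tau_pow]
    apply GG.ext
    · exact ha
    · simp
    · funext x
      exact hv x
  have hex : ∀ b : ZMod 5, b ≠ 0 → ∃ j : ℕ, (b.val * j) % 5 = 1 := by
    have : ∀ b : ZMod 5, b ≠ 0 → ∃ j : Fin 5, (b.val * j.val) % 5 = 1 := by decide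
    intro b hb
    obtain ⟨j, hj⟩ := this b hb
    exact ⟨j.val, hj⟩
  obtain ⟨j, hj⟩ := hex g.b hb
  have h2 : tau = g ^ j := by
    rw [h1, ← pow_mul, ← pow_mod_orderOf, orderOf_tau, hj, pow_one]
  rw [h2]
  exact K.pow_mem hg j

/-- Elements of `M` different from `1`, together with their conjugate by `tau`, generate `tau`. -/
theorem tau_mem_of_M {K : Subgroup GG} {m : GG} (hm : m ∈ M) (h1 : m ≠ 1) (hK : m ∈ K)
    (hK2 : tau * m * tau⁻¹ ∈ K) : tau ∈ K := by
  have hv := mem_M.mp hm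
  by_cases ha : m.a = 1
  · refine tau_mem_of hK ha ?_ hv
    intro hb
    apply h1
    apply GG.ext
    · exact ha
    · exact hb
    · funext x
      exact hv x
  · refine tau_mem_of (K.mul_mem hK2 (K.inv_mem hK)) ?_ ?_ ?_
    · simp [tau]
    · intro hb
      apply ha
      have h2 : ((m.a : ZMod 5)) = 1 := by
        have h3 : ((m.a : ZMod 5)) * ((m.a⁻¹ : (ZMod 5)ˣ) : ZMod 5) = 1 := by
          rw [← Units.val_mul, mul_inv_cancel, Units.val_one]
        simp [tau] at hb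
        linear_combination -hb
      exact Units.ext h2
    · intro x
      simp [tau, hv]

/-! ### Cardinalities -/

theorem card_V : Nat.card {v : ZMod 5 → ZMod 3 // ∑ x, v x = 0} = 81 := by
  rw [Nat.card_eq_fintype_card, Fintype.card_subtype]
  decide +kernel

/-- `N` as a set of vectors. -/
def eN : N ≃ {v : ZMod 5 → ZMod 3 // ∑ x, v x = 0} where
  toFun g := ⟨g.1.v, g.1.hv⟩
  invFun v := ⟨nn v.1 v.2, nn_mem _ _⟩
  left_inv g := Subtype.ext (eq_nn g.2).symm
  right_inv _ := rfl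

theorem card_N : Nat.card N = 81 := by
  rw [Nat.card_congr eN, card_V]

/-- `M` as a set of affine maps. -/
def eM : M ≃ (ZMod 5)ˣ × ZMod 5 where
  toFun g := (g.1.a, g.1.b)
  invFun p := ⟨⟨p.1, p.2, fun _ => 0, by simp⟩, mem_M.mpr (fun _ => rfl)⟩
  left_inv g := by
    apply Subtype.ext
    apply GG.ext
    · rfl
    · rfl
    · funext x
      exact (mem_M.mp g.2 x).symm
  right_inv _ := rfl

theorem card_M : Nat.card M = 20 := by
  rw [Nat.card_congr eM, Nat.card_prod, Nat.card_eq_fintype_card, ZMod.card_units_eq_totient,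
    Nat.card_zmod]
  decide

theorem card_quot_N : Nat.card (GG ⧸ N) = 20 := by
  rw [← card_M]
  exact Nat.card_congr (QuotientGroup.quotientKerEquivRange prj).toEquiv

theorem card_GG : Nat.card GG = 1620 := by
  rw [Subgroup.card_eq_card_quotient_mul_card_subgroup N, card_quot_N, card_N]

instance : Finite GG := Nat.finite_of_card_ne_zero (by rw [card_GG]; norm_num)

/-! ### Irreducibility -/

/-- The vector `(1,-1,0,0,0)`. -/
def w0 : ZMod 5 → ZMod 3 := fun x => if x = 0 then 1 else if x = 1 then -1 else 0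

theorem w0_sum : ∑ x, w0 x = 0 := by decide

theorem brute1 : ∀ a b c d e : ZMod 3, a + b + c + d + e = 0 →
    ¬ (a = 0 ∧ b = 0 ∧ c = 0 ∧ d = 0 ∧ e = 0) → ∃ p q r s : ZMod 3,
    (p * a + q * e + r * d + s * c = 1) ∧ (p * b + q * a + r * e + s * d = -1) ∧
    (p * c + q * b + r * a + s * e = 0) ∧ (p * d + q * c + r * b + s * a = 0) ∧
    (p * e + q * d + r * c + s * b = 0) := by
  decide +kernel

theorem brute2 : ∀ a b c d e : ZMod 3, a + b + c + d + e = 0 →
    (a = a * w0 0 + (a + b) * w0 (0 - ((1 : ℕ) : ZMod 5)) + (a + b + c) * w0 (0 - ((2 : ℕ) : ZMod 5)) +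
      (a + b + c + d) * w0 (0 - ((3 : ℕ) : ZMod 5))) ∧
    (b = a * w0 1 + (a + b) * w0 (1 - ((1 : ℕ) : ZMod 5)) + (a + b + c) * w0 (1 - ((2 : ℕ) : ZMod 5)) +
      (a + b + c + d) * w0 (1 - ((3 : ℕ) : ZMod 5))) ∧
    (c = a * w0 2 + (a + b) * w0 (2 - ((1 : ℕ) : ZMod 5)) + (a + b + c) * w0 (2 - ((2 : ℕ) : ZMod 5)) +
      (a + b + c + d) * w0 (2 - ((3 : ℕ) : ZMod 5))) ∧
    (d = a * w0 3 + (a + b) * w0 (3 - ((1 : ℕ) : ZMod 5)) + (a + b + c) * w0 (3 - ((2 : ℕ) : ZMod 5)) +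
      (a + b + c + d) * w0 (3 - ((3 : ℕ) : ZMod 5))) ∧
    (e = a * w0 4 + (a + b) * w0 (4 - ((1 : ℕ) : ZMod 5)) + (a + b + c) * w0 (4 - ((2 : ℕ) : ZMod 5)) +
      (a + b + c + d) * w0 (4 - ((3 : ℕ) : ZMod 5))) := by
  decide +kernel

theorem conj_tau_v (g : GG) (hg : g ∈ N) (x : ZMod 5) : (tau * g * tau⁻¹).v x = g.v (x - 1) := by
  obtain ⟨h1, h2⟩ := mem_N.mp hg
  simp [tau, sub_eq_add_neg]

/-- A nontrivial `tau`-invariant subgroup of `N` is all of `N`. -/
theorem N_le_of {U : Subgroup GG} (hU : ∃ g ∈ U, g ∈ N ∧ g ≠ 1)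
    (ht : ∀ g ∈ U, g ∈ N → tau * g * tau⁻¹ ∈ U) : N ≤ U := by
  -- the set of vectors of elements of `U ∩ N`
  let A : AddSubgroup (ZMod 5 → ZMod 3) :=
    { carrier := {v | ∃ g ∈ U, g ∈ N ∧ g.v = v}
      add_mem' := by
        rintro v w ⟨g, hg1, hg2, rfl⟩ ⟨h, hh1, hh2, rfl⟩
        refine ⟨g * h, U.mul_mem hg1 hh1, N.mul_mem hg2 hh2, ?_⟩
        obtain ⟨h3, h4⟩ := mem_N.mp hh2
        funext x
        simp [h3, h4, add_comm]
      zero_mem' := ⟨1, U.one_mem, N.one_mem, rfl⟩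
      neg_mem' := by
        rintro v ⟨g, hg1, hg2, rfl⟩
        refine ⟨g⁻¹, U.inv_mem hg1, N.inv_mem hg2, ?_⟩
        obtain ⟨h3, h4⟩ := mem_N.mp hg2
        funext x
        simp [h3, h4] }
  have hA : ∀ v, v ∈ A ↔ ∃ g ∈ U, g ∈ N ∧ g.v = v := fun v => Iff.rfl
  have hshift : ∀ v ∈ A, (fun x => v (x - 1)) ∈ A := by
    intro v hv
    obtain ⟨g, hg1, hg2, rfl⟩ := (hA v).mp hv
    refine (hA _).mpr ⟨tau * g * tau⁻¹, ht g hg1 hg2, ?_, ?_⟩
    · exact (inferInstance : N.Normal).conj_mem g hg2 tau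
    · funext x
      exact conj_tau_v g hg2 x
  have hshift' : ∀ v ∈ A, ∀ k : ℕ, (fun x => v (x - k)) ∈ A := by
    intro v hv k
    induction k with
    | zero => simpa using hv
    | succ k ih =>
      have := hshift _ ih
      have h2 : (fun x : ZMod 5 => v (x - ((k + 1 : ℕ) : ZMod 5))) =
          fun x => v (x - 1 - (k : ZMod 5)) := by
        funext x
        congr 1
        push_cast
        ring
      rw [h2]
      exact this
  have hsmul : ∀ v ∈ A, ∀ c : ZMod 3, (fun x => c * v x) ∈ A := by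
    intro v hv c
    have h1 : (fun x => c * v x) = c.val • v := by
      funext x
      simp [nsmul_eq_mul]
    rw [h1]
    exact A.nsmul_mem hv _
  -- step one : `w0 ∈ A`
  have hw0 : w0 ∈ A := by
    obtain ⟨g, hg1, hg2, hg3⟩ := hU
    have hgA : g.v ∈ A := (hA _).mpr ⟨g, hg1, hg2, rfl⟩
    have hsum : g.v 0 + g.v 1 + g.v 2 + g.v 3 + g.v 4 = 0 := by
      have := g.hv
      rw [show (Finset.univ : Finset (ZMod 5)) = {0, 1, 2, 3, 4} by decide] at this
      rw [Finset.sum_insert (by decide), Finset.sum_insert (by decide),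
        Finset.sum_insert (by decide), Finset.sum_insert (by decide), Finset.sum_singleton] at this
      rw [← this]
      ring
    have hne : ¬ (g.v 0 = 0 ∧ g.v 1 = 0 ∧ g.v 2 = 0 ∧ g.v 3 = 0 ∧ g.v 4 = 0) := by
      rintro ⟨h0, h1, h2, h3, h4⟩
      apply hg3
      obtain ⟨h5, h6⟩ := mem_N.mp hg2
      apply GG.ext
      · exact h5
      · exact h6
      · funext x
        have : ∀ x : ZMod 5, x = 0 ∨ x = 1 ∨ x = 2 ∨ x = 3 ∨ x = 4 := by decide
        rcases this x with rfl | rfl | rfl | rfl | rfl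
        · exact h0
        · exact h1
        · exact h2
        · exact h3
        · exact h4
    obtain ⟨p, q, r, s, e0, e1, e2, e3, e4⟩ := brute1 _ _ _ _ _ hsum hne
    have h1 := hsmul _ hgA p
    have h2 := hsmul _ (hshift' _ hgA 1) q
    have h3 := hsmul _ (hshift' _ hgA 2) r
    have h4 := hsmul _ (hshift' _ hgA 3) s
    have h5 := A.add_mem (A.add_mem (A.add_mem h1 h2) h3) h4
    convert h5 using 1
    funext x
    simp only [Pi.add_apply]
    have : ∀ x : ZMod 5, x = 0 ∨ x = 1 ∨ x = 2 ∨ x = 3 ∨ x = 4 := by decide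
    rcases this x with rfl | rfl | rfl | rfl | rfl
    · exact e0.symm
    · exact e1.symm
    · exact e2.symm
    · exact e3.symm
    · exact e4.symm
  -- step two : every vector of sum zero is in `A`
  intro g hg
  have hgA : g.v ∈ A := by
    have hsum : g.v 0 + g.v 1 + g.v 2 + g.v 3 + g.v 4 = 0 := by
      have := g.hv
      rw [show (Finset.univ : Finset (ZMod 5)) = {0, 1, 2, 3, 4} by decide] at this
      rw [Finset.sum_insert (by decide), Finset.sum_insert (by decide),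
        Finset.sum_insert (by decide), Finset.sum_insert (by decide), Finset.sum_singleton] at this
      rw [← this]
      ring
    have h1 := hsmul _ hw0 (g.v 0)
    have h2 := hsmul _ (hshift' _ hw0 1) (g.v 0 + g.v 1)
    have h3 := hsmul _ (hshift' _ hw0 2) (g.v 0 + g.v 1 + g.v 2)
    have h4 := hsmul _ (hshift' _ hw0 3) (g.v 0 + g.v 1 + g.v 2 + g.v 3)
    have h5 := A.add_mem (A.add_mem (A.add_mem h1 h2) h3) h4
    convert h5 using 1
    funext x
    simp only [Pi.add_apply]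
    have : ∀ x : ZMod 5, x = 0 ∨ x = 1 ∨ x = 2 ∨ x = 3 ∨ x = 4 := by decide
    obtain ⟨e0, e1, e2, e3, e4⟩ := brute2 _ _ _ _ _ hsum
    rcases this x with rfl | rfl | rfl | rfl | rfl
    · exact e0
    · exact e1
    · exact e2
    · exact e3
    · exact e4
  obtain ⟨h, hh1, hh2, hh3⟩ := (hA _).mp hgA
  have : g = h := by
    rw [eq_nn hg, eq_nn hh2]
    congr 1
    exact hh3.symm
  rw [this]
  exact hh1

end GG

end Pool.Agent.Helper36.Schunck
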