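import Mathlib
import Pool.Agent.Helper36.Schunck.GG

set_option autoImplicit false

namespace Pool.Agent.Helper36.Schunck

namespace GG

theorem brute3 : ∀ (a : (ZMod 5)ˣ) (b : ZMod 5), ¬ (a = 1 ∧ b = 0) →
    ∃ i x : ZMod 5, w0 (((a⁻¹ : (ZMod 5)ˣ) : ZMod 5) * x + -(((a⁻¹ : (ZMod 5)ˣ) : ZMod 5) * b) - i) ≠
      w0 (x - i) := by
  decide +kernel

theorem shift_sum (i : ZMod 5) : ∑ x, w0 (x - i) = 0 := by
  revert i
  decide

theorem conj_nn_v (g : GG) (w : ZMod 5 → ZMod 3) (hw : ∑ x, w x = 0) (x : ZMod 5) :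
    (g * nn w hw * g⁻¹).v x =
      w (((g.a⁻¹ : (ZMod 5)ˣ) : ZMod 5) * x + -(((g.a⁻¹ : (ZMod 5)ˣ) : ZMod 5) * g.b)) := by
  simp [nn]

/-- `N` is its own centralizer. -/
theorem exists_noncomm {g : GG} (hg : g ∉ N) : ∃ n ∈ N, g * n * g⁻¹ ≠ n := by
  have h1 : ¬ (g.a = 1 ∧ g.b = 0) := fun h => hg (mem_N.mpr h)
  obtain ⟨i, x, hx⟩ := brute3 g.a g.b h1
  refine ⟨nn (fun x => w0 (x - i)) (shift_sum i), nn_mem _ _, fun h => hx ?_⟩
  have h2 := congrFun (congrArg GG.v h) x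
  rw [conj_nn_v] at h2
  exact h2

theorem N_le_of_normal {K : Subgroup GG} [hK : K.Normal] (hne : K ≠ ⊥) : N ≤ K := by
  obtain ⟨g, hg, hg1⟩ := (Subgroup.ne_bot_iff_exists_ne_one).mp hne |>.elim
    (fun g hg => (⟨g.1, g.2, fun h => hg (Subtype.ext h)⟩ : ∃ g ∈ K, g ≠ 1))
  apply N_le_of
  · by_cases hgN : g ∈ N
    · exact ⟨g, hg, hgN, hg1⟩
    · obtain ⟨n, hn, hne⟩ := exists_noncomm hgN
      refine ⟨g * n * g⁻¹ * n⁻¹, ?_, ?_, ?_⟩
      · have : g * n * g⁻¹ * n⁻¹ = g * (n * g⁻¹ * n⁻¹) := by group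
        rw [this]
        exact K.mul_mem hg (hK.conj_mem _ (K.inv_mem hg) n)
      · exact N.mul_mem ((inferInstance : N.Normal).conj_mem n hn g) (N.inv_mem hn)
      · intro h
        exact hne (mul_inv_eq_one.mp h)
  · intro g hg _
    exact hK.conj_mem g hg tau

theorem tau_mem_of_normal {K : Subgroup GG} [hK : K.Normal] (hN : N ≤ K) (hne : K ≠ N) :
    tau ∈ K := by
  have hex : ∃ g ∈ K, g ∉ N := by
    by_contra h
    push Not at h
    exact hne (le_antisymm h hN)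
  obtain ⟨g, hg, hgN⟩ := hex
  obtain ⟨h1, h2, h3⟩ := decomp g
  have h4 : prj g ∈ K := by
    have : prj g = g * ((prj g)⁻¹ * g)⁻¹ := by group
    rw [this]
    exact K.mul_mem hg (K.inv_mem (hN h2))
  refine tau_mem_of_M h1 ?_ h4 (hK.conj_mem _ h4 tau)
  intro h5
  exact hgN h5

theorem tau_mem_of_normal_M {K : Subgroup M} [hK : K.Normal] (hne : K ≠ ⊥) :
    (⟨tau, tau_mem_M⟩ : M) ∈ K := by
  obtain ⟨g, hg, hg1⟩ := (Subgroup.ne_bot_iff_exists_ne_one).mp hne |>.elim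
    (fun g hg => (⟨g.1, g.2, fun h => hg (Subtype.ext h)⟩ : ∃ g ∈ K, g ≠ 1))
  have h1 : tau ∈ K.map M.subtype := by
    refine tau_mem_of_M g.2 (fun h => hg1 (Subtype.ext h)) ⟨g, hg, rfl⟩ ?_
    exact ⟨⟨tau, tau_mem_M⟩ * g * ⟨tau, tau_mem_M⟩⁻¹, hK.conj_mem g hg _, rfl⟩
  obtain ⟨h, hh, hh2⟩ := h1
  have : h = ⟨tau, tau_mem_M⟩ := Subtype.ext hh2
  rw [← this]
  exact hh

/-- `M` is a maximal subgroup. -/
theorem M_coatom : IsCoatom M := by
  refine ⟨?_, ?_⟩
  · intro h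
    have h1 := card_M
    rw [h, Subgroup.card_top, card_GG] at h1
    omega
  · intro P hP
    have hex : ∃ g ∈ P, g ∉ M := by
      by_contra h
      push Not at h
      exact hP.ne (le_antisymm hP.le h)
    obtain ⟨g, hg, hgM⟩ := hex
    obtain ⟨h1, h2, h3⟩ := decomp g
    have hNP : N ≤ P := by
      apply N_le_of
      · refine ⟨(prj g)⁻¹ * g, P.mul_mem (P.inv_mem (hP.le h1)) hg, h2, ?_⟩
        intro h
        apply hgM
        rw [h3, h, mul_one]
        exact h1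
      · intro k hk _
        exact P.mul_mem (P.mul_mem (hP.le tau_mem_M) hk) (P.inv_mem (hP.le tau_mem_M))
    rw [eq_top_iff, ← M_sup_N]
    exact sup_le hP.le hNP

theorem M_core : M.normalCore = ⊥ := by
  by_contra h
  have h1 : N ≤ M := (N_le_of_normal h).trans (Subgroup.normalCore_le M)
  have h2 : N ≤ M ⊓ N := le_inf h1 le_rfl
  rw [M_inf_N] at h2
  have h3 : Nat.card N = 1 := by
    rw [le_bot_iff.mp h2, Subgroup.card_bot]
  rw [card_N] at h3
  omega

theorem primitive : IsPrimitiveGroup GG := ⟨M, M_coatom, M_core⟩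

/-- The linear part as a homomorphism. -/
def chi : GG →* (ZMod 5)ˣ where
  toFun g := g.a
  map_one' := rfl
  map_mul' _ _ := rfl

/-- The translation part as a homomorphism on the kernel of `chi`. -/
def transl : chi.ker →* Multiplicative (ZMod 5) where
  toFun g := Multiplicative.ofAdd g.1.b
  map_one' := rfl
  map_mul' g h := by
    have hg : g.1.a = 1 := g.2
    change Multiplicative.ofAdd (g.1 * h.1).b = Multiplicative.ofAdd (g.1.b + h.1.b)
    rw [mul_b, hg]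
    simp [add_comm]

instance : Group.IsSolvable GG := by
  have h1 : Group.IsSolvable transl.ker := by
    apply isSolvable_of_comm
    intro g h
    apply Subtype.ext
    apply Subtype.ext
    have hg : (g.1.1 : GG) ∈ N := mem_N.mpr ⟨g.1.2, g.2⟩
    have hh : (h.1.1 : GG) ∈ N := mem_N.mpr ⟨h.1.2, h.2⟩
    exact N_comm hg hh
  have h2 : Group.IsSolvable chi.ker := by
    apply solvable_of_ker_le_range transl.ker.subtype transl
    rw [Subgroup.range_subtype]
  apply solvable_of_ker_le_range chi.ker.subtype chi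
  rw [Subgroup.range_subtype]

end GG

end Pool.Agent.Helper36.Schunck
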