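import Mathlib
import Pool.Agent.Helper36.Schunck.GG2

set_option autoImplicit false

namespace Pool.Agent.Helper36.Schunck

open GG

/-- The forbidden epimorphic images: groups of odd order greater than one, groups of order ten and
the group `3^4 : F_20`. -/
def Bad (Q : Type) [Group Q] : Prop :=
  (Odd (Nat.card Q) ∧ Nat.card Q ≠ 1) ∨ Nat.card Q = 10 ∨ Nonempty (Q ≃* GG)

/-- The class of finite soluble groups without forbidden epimorphic images. -/
def XC : SolClass where
  Mem G _ := Finite G ∧ Group.IsSolvable G ∧
    ∀ (Q : Type) [Group Q] (f : G →* Q), Function.Surjective f → ¬ Bad Q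
  finite_of_mem _ _ h := h.1
  solvable_of_mem _ _ h := h.2.1
  mem_of_iso G H _ _ e h := by
    have := h.1
    have := h.2.1
    refine ⟨Finite.of_equiv _ e.toEquiv, solvable_of_surjective (f := e.toMonoidHom) e.surjective,
      ?_⟩
    intro Q _ f hf
    exact h.2.2 Q (f.comp e.toMonoidHom) (hf.comp e.surjective)

theorem XC_iff {G : Type} [Group G] : XC.Mem G ↔ (Finite G ∧ Group.IsSolvable G ∧
    ∀ (Q : Type) [Group Q] (f : G →* Q), Function.Surjective f → ¬ Bad Q) := Iff.rfl

theorem XC_not_bad {G : Type} [Group G] (h : XC.Mem G) : ¬ Bad G :=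
  h.2.2 G (MonoidHom.id G) Function.surjective_id

theorem XC_image (G Q : Type) [Group G] [Group Q] (f : G →* Q) (hf : Function.Surjective f)
    (h : XC.Mem G) : XC.Mem Q := by
  have := h.1
  have := h.2.1
  exact ⟨Finite.of_surjective f hf, solvable_of_surjective hf,
    fun R _ g hg => h.2.2 R (g.comp f) (hg.comp hf)⟩

/-- A group of order ten all of whose primitive images are in the class does not exist. -/
theorem ten_aux (Q : Type) [Group Q] (hcard : Nat.card Q = 10)
    (h : ∀ (R : Type) [Group R] (f : Q →* R), Function.Surjective f → IsPrimitiveGroup R →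
      XC.Mem R) : False := by
  have : Finite Q := Nat.finite_of_card_ne_zero (by rw [hcard]; norm_num)
  have : Fact (Nat.Prime 2) := ⟨by norm_num⟩
  obtain ⟨x, hx⟩ := exists_prime_orderOf_dvd_card' (G := Q) 2 (by rw [hcard]; norm_num)
  set P := Subgroup.zpowers x with hP
  have hPc : Nat.card P = 2 := by rw [hP, Nat.card_zpowers, hx]
  have hcoatom : IsCoatom P := by
    refine ⟨?_, ?_⟩
    · intro h1
      rw [h1, Subgroup.card_top, hcard] at hPc
      omega
    · intro R hR
      have h1 : Nat.card R ∣ 10 := by rw [← hcard]; exact Subgroup.card_subgroup_dvd_card R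
      have h2 : 2 ∣ Nat.card R := by rw [← hPc]; exact Subgroup.card_dvd_of_le hR.le
      have h3 : Nat.card R ≠ 2 := by
        intro h3
        apply hR.ne
        exact Subgroup.eq_of_le_of_card_ge hR.le (by rw [h3, hPc])
      have h4 : Nat.card R ≤ 10 := Nat.le_of_dvd (by norm_num) h1
      have h5 : Nat.card R = 10 := by
        interval_cases (Nat.card R) <;> omega
      exact Subgroup.eq_top_of_card_eq R (by rw [h5, hcard])
  by_cases hc : P.normalCore = ⊥
  · have hprim : IsPrimitiveGroup Q := ⟨P, hcoatom, hc⟩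
    have h1 := h Q (MonoidHom.id Q) Function.surjective_id hprim
    exact XC_not_bad h1 (Or.inr (Or.inl hcard))
  · have hc2 : P.normalCore = P := by
      have h1 : Nat.card P.normalCore ∣ 2 := by
        rw [← hPc]; exact Subgroup.card_dvd_of_le P.normalCore_le
      have h2 : Nat.card P.normalCore ≠ 1 := by
        intro h2
        exact hc (Subgroup.eq_bot_of_card_eq _ h2)
      have h3 : Nat.card P.normalCore = 2 := by
        rcases (Nat.dvd_prime (by norm_num)).mp h1 with h | h
        · exact absurd h h2
        · exact h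
      exact Subgroup.eq_of_le_of_card_ge P.normalCore_le (by rw [h3, hPc])
    have hn : P.Normal := by rw [← hc2]; infer_instance
    have h5 : Nat.card (Q ⧸ P) = 5 := by
      have h6 := Subgroup.card_eq_card_quotient_mul_card_subgroup P
      rw [hcard, hPc] at h6
      omega
    have h7 := h (Q ⧸ P) (QuotientGroup.mk' P) (QuotientGroup.mk'_surjective P)
      (primitive_of_prime_card _ 5 (by norm_num) h5)
    refine XC_not_bad h7 (Or.inl ?_)
    rw [h5]
    exact ⟨by decide, by norm_num⟩

theorem XC_schunck : IsSchunckClass XC where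
  image := XC_image
  prim G _ hG hS h := by
    refine ⟨hG, hS, ?_⟩
    intro Q _ f hf hbad
    have hQ : Finite Q := Finite.of_surjective f hf
    rcases hbad with ⟨hodd, hne⟩ | h10 | ⟨⟨e⟩⟩
    · obtain ⟨M, hM, hprim⟩ := exists_primitive_image Q hne
      have h1 := h (Q ⧸ M.normalCore) ((QuotientGroup.mk' _).comp f)
        ((QuotientGroup.mk'_surjective _).comp hf) hprim
      refine XC_not_bad h1 (Or.inl ⟨?_, ?_⟩)
      · exact hodd.of_dvd_nat ⟨_, Subgroup.card_eq_card_quotient_mul_card_subgroup M.normalCore⟩
      · intro h2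
        have h3 : M.normalCore = ⊤ := Subgroup.index_eq_one.mp h2
        apply hM.1
        rw [eq_top_iff, ← h3]
        exact M.normalCore_le
    · refine ten_aux Q h10 ?_
      intro R _ g hg hprim
      exact h R (g.comp f) (hg.comp hf) hprim
    · have h1 := h Q f hf (primitive_of_iso e.symm GG.primitive)
      exact XC_not_bad h1 (Or.inr (Or.inr ⟨e⟩))

/-- No forbidden group is an extension of two groups of the class. -/
theorem not_bad_ext (Q : Type) [Group Q] [Finite Q] (K : Subgroup Q) [K.Normal] (hK : XC.Mem K)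
    (hQ : XC.Mem (Q ⧸ K)) : ¬ Bad Q := by
  have hcard := Subgroup.card_eq_card_quotient_mul_card_subgroup K
  have hnK := XC_not_bad hK
  have hnQ := XC_not_bad hQ
  have hoK : Odd (Nat.card K) → Nat.card K = 1 := fun h => by
    by_contra h1
    exact hnK (Or.inl ⟨h, h1⟩)
  have hoQ : Odd (Nat.card (Q ⧸ K)) → Nat.card (Q ⧸ K) = 1 := fun h => by
    by_contra h1
    exact hnQ (Or.inl ⟨h, h1⟩)
  rintro (⟨hodd, hne⟩ | h10 | ⟨⟨e⟩⟩)
  · rw [hcard, Nat.odd_mul] at hodd
    apply hne
    rw [hcard, hoK hodd.2, hoQ hodd.1]
  · have h1 : Nat.card K ∣ 10 := by rw [← h10]; exact Subgroup.card_subgroup_dvd_card K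
    have h2 : Nat.card K ≠ 10 := fun h => hnK (Or.inr (Or.inl h))
    have h3 : Nat.card (Q ⧸ K) ≠ 10 := fun h => hnQ (Or.inr (Or.inl h))
    have h4 : Nat.card K ≤ 10 := Nat.le_of_dvd (by norm_num) h1
    rw [h10] at hcard
    have h5 : Nat.card K = 1 ∨ Nat.card K = 2 ∨ Nat.card K = 5 ∨ Nat.card K = 10 := by
      interval_cases (Nat.card K) <;> omega
    rcases h5 with h | h | h | h
    · rw [h] at hcard
      exact h3 (by omega)
    · rw [h] at hcard
      have h6 : Nat.card (Q ⧸ K) = 5 := by omega
      have := hoQ (by rw [h6]; decide)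
      omega
    · have := hoK (by rw [h]; decide)
      omega
    · exact h2 h
  · -- the image of `K` in `GG`
    set K' : Subgroup GG := K.map e.toMonoidHom with hK'
    have hn : K'.Normal := Subgroup.Normal.map inferInstance _ e.surjective
    have eK : K ≃* K' := K.equivMapOfInjective e.toMonoidHom e.injective
    have hKK' : XC.Mem K' := XC.mem_of_iso _ _ eK hK
    by_cases hbot : K' = ⊥
    · have hKbot : K = ⊥ := (Subgroup.map_eq_bot_iff_of_injective K e.injective).mp hbot
      apply hnQ
      right
      right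
      have hinj : Function.Bijective (QuotientGroup.mk' K) := by
        refine ⟨?_, QuotientGroup.mk'_surjective K⟩
        rw [← MonoidHom.ker_eq_bot_iff, QuotientGroup.ker_mk', hKbot]
      exact ⟨(MulEquiv.ofBijective _ hinj).symm.trans e⟩
    · have hNK : N ≤ K' := N_le_of_normal hbot
      by_cases hN : K' = N
      · have h1 : Nat.card K' = 81 := by rw [hN, card_N]
        exact XC_not_bad hKK' (Or.inl ⟨by rw [h1]; decide, by rw [h1]; norm_num⟩)
      · have htau : tau ∈ K' := tau_mem_of_normal hNK hN
        have hfin : Finite K' := inferInstance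
        have h5 : 5 ∣ Nat.card K' := by
          rw [← orderOf_tau]
          exact Subgroup.orderOf_dvd_natCard K' htau
        have h81 : 81 ∣ Nat.card K' := by
          rw [← card_N]
          exact Subgroup.card_dvd_of_le hNK
        have h1620 : Nat.card K' ∣ 1620 := by
          rw [← card_GG]
          exact Subgroup.card_subgroup_dvd_card K'
        have h405 : 405 ∣ Nat.card K' := by
          have : Nat.Coprime 5 81 := by norm_num
          exact this.mul_dvd_of_dvd_of_dvd h5 h81
        obtain ⟨k, hk⟩ := h405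
        have hk4 : k ∣ 4 := by
          rw [hk] at h1620
          have : 405 * k ∣ 405 * 4 := by simpa using h1620
          exact Nat.dvd_of_mul_dvd_mul_left (by norm_num) this
        have hk4' : k ≤ 4 := Nat.le_of_dvd (by norm_num) hk4
        have hk0 : k ≠ 0 := by rintro rfl; simp at hk4
        have hk3 : k ≠ 3 := by rintro rfl; norm_num at hk4
        have hkk : k ≠ 4 := by
          rintro rfl
          have htop : K' = ⊤ := Subgroup.eq_top_of_card_eq _ (by rw [hk, card_GG])
          exact hnK (Or.inr (Or.inr ⟨eK.trans ((MulEquiv.subgroupCongr htop).trans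
            Subgroup.topEquiv)⟩))
        -- the quotient by `N`
        set NK : Subgroup K' := N.subgroupOf K' with hNKdef
        have hNKc : Nat.card NK = 81 := by
          rw [Nat.card_congr (Subgroup.subgroupOfEquivOfLe hNK).toEquiv, card_N]
        have hq := Subgroup.card_eq_card_quotient_mul_card_subgroup NK
        rw [hNKc, hk] at hq
        have hq2 : Nat.card (K' ⧸ NK) = 5 * k := by omega
        have hmem : XC.Mem (K' ⧸ NK) :=
          XC_image _ _ (QuotientGroup.mk' NK) (QuotientGroup.mk'_surjective NK) hKK'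
        have hnb := XC_not_bad hmem
        have hk12 : k = 1 ∨ k = 2 := by omega
        rcases hk12 with rfl | rfl
        · exact hnb (Or.inl ⟨by rw [hq2]; decide, by rw [hq2]; norm_num⟩)
        · exact hnb (Or.inr (Or.inl hq2))

/-- The trivial group and groups of order two lie in the class. -/
theorem XC_of_card_le_two (G : Type) [Group G] (h : Nat.card G = 1 ∨ Nat.card G = 2) :
    XC.Mem G := by
  have hfin : Finite G := Nat.finite_of_card_ne_zero (by omega)
  have hdvd : Nat.card G ∣ 2 := by rcases h with h | h <;> rw [h] <;> norm_num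
  have hsol : Group.IsSolvable G := by
    have h2 : IsPGroup 2 G := IsPGroup.of_card_dvd_pow (n := 1) (by simpa using hdvd)
    have : Fact (Nat.Prime 2) := ⟨by norm_num⟩
    have := h2.isNilpotent
    infer_instance
  refine ⟨hfin, hsol, ?_⟩
  intro Q _ f hf hbad
  have h1 : Nat.card Q ∣ 2 := (Subgroup.card_dvd_of_surjective f hf).trans hdvd
  have h2 : Nat.card Q = 1 ∨ Nat.card Q = 2 := (Nat.dvd_prime (by norm_num)).mp h1
  rcases hbad with ⟨ho, hne⟩ | h10 | ⟨⟨e⟩⟩
  · rcases h2 with h2 | h2
    · exact hne h2
    · rw [h2] at ho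
      revert ho
      decide
  · omega
  · have := Nat.card_congr e.toEquiv
    rw [card_GG] at this
    omega

theorem XC_square : SquareEq XC.Mem := by
  intro G _
  constructor
  · rintro ⟨hG, hS, L, hL, h1, h2⟩
    refine ⟨hG, hS, ?_⟩
    intro Q _ f hf
    have hQ : Finite Q := Finite.of_surjective f hf
    have hn : (L.map f).Normal := Subgroup.Normal.map inferInstance _ hf
    have hK : XC.Mem (L.map f) := mem_map XC_schunck f L h1
    have hker : L ≤ ((QuotientGroup.mk' (L.map f)).comp f).ker := by
      intro x hx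
      rw [MonoidHom.mem_ker, MonoidHom.comp_apply, QuotientGroup.mk'_apply,
        QuotientGroup.eq_one_iff]
      exact ⟨x, hx, rfl⟩
    have hQK : XC.Mem (Q ⧸ L.map f) := by
      refine XC_image (G ⧸ L) _ (QuotientGroup.lift L ((QuotientGroup.mk' (L.map f)).comp f) hker)
        ?_ h2
      intro y
      obtain ⟨z, rfl⟩ := ((QuotientGroup.mk'_surjective (L.map f)).comp hf) y
      exact ⟨(z : G ⧸ L), rfl⟩
    exact not_bad_ext Q (L.map f) hK hQK
  · intro h
    refine ⟨h.1, h.2.1, ⊥, inferInstance, ?_, ?_⟩
    · exact XC_of_card_le_two _ (Or.inl (by rw [Subgroup.card_bot]))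
    · exact XC_image _ _ (QuotientGroup.mk' ⊥) (QuotientGroup.mk'_surjective ⊥) h

/-- The complement `F_20` lies in the class. -/
theorem XC_M : XC.Mem M := by
  refine ⟨inferInstance, inferInstance, ?_⟩
  intro Q _ f hf hbad
  have hQ : Finite Q := Finite.of_surjective f hf
  have hc : Nat.card Q * Nat.card f.ker = 20 := by
    rw [← card_M, Subgroup.card_eq_card_quotient_mul_card_subgroup f.ker,
      Nat.card_congr (QuotientGroup.quotientKerEquivOfSurjective f hf).toEquiv]
  by_cases hk : f.ker = ⊥
  · rw [hk, Subgroup.card_bot, mul_one] at hc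
    rcases hbad with ⟨ho, -⟩ | h10 | ⟨⟨e⟩⟩
    · rw [hc] at ho
      revert ho
      decide
    · omega
    · have := Nat.card_congr e.toEquiv
      rw [card_GG] at this
      omega
  · have htau := tau_mem_of_normal_M hk
    have h5 : 5 ∣ Nat.card f.ker := by
      have h1 : orderOf (⟨tau, tau_mem_M⟩ : M) = 5 := by
        rw [← orderOf_tau]
        exact Subgroup.orderOf_mk tau tau_mem_M
      rw [← h1]
      exact Subgroup.orderOf_dvd_natCard _ htau
    obtain ⟨k, hk5⟩ := h5
    rw [hk5] at hc
    have h4 : Nat.card Q * k = 4 := by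
      have : 5 * (Nat.card Q * k) = 5 * 4 := by rw [← hc.trans (by norm_num : 20 = 5 * 4)]; ring
      exact Nat.eq_of_mul_eq_mul_left (by norm_num) this
    have h4' : Nat.card Q ∣ 4 := ⟨k, h4.symm⟩
    have h4'' : Nat.card Q ≤ 4 := Nat.le_of_dvd (by norm_num) h4'
    rcases hbad with ⟨ho, hne⟩ | h10 | ⟨⟨e⟩⟩
    · have h3 : Nat.card Q ≠ 3 := by
        intro h3
        rw [h3] at h4'
        norm_num at h4'
      obtain ⟨j, hj⟩ := ho
      omega
    · omega
    · have := Nat.card_congr e.toEquiv
      rw [card_GG] at this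
      omega

/-- The whole group `3^4 : F_20` is not in the class. -/
theorem XC_not_GG : ¬ XC.Mem GG := fun h => XC_not_bad h (Or.inr (Or.inr ⟨MulEquiv.refl _⟩))

end Pool.Agent.Helper36.Schunck
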