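import Mathlib
import Pool.Agent.Helper36.Schunck.XClass

set_option autoImplicit false

namespace Pool.Agent.Helper36.Schunck

open GG

/-! ### The symmetric group of degree three, in the form needed -/

/-- A finite soluble group generated by `u` and `t` with `u^3 = t^2 = 1`, `t u t⁻¹ = u⁻¹` lies in
the class. -/
theorem XC_of_six {H : Type} [Group H] [Finite H] [Group.IsSolvable H] (u t : H)
    (hgen : Subgroup.closure {u, t} = ⊤) (hu : u ^ 3 = 1) (ht : t ^ 2 = 1)
    (hc : t * u * t⁻¹ = u⁻¹) : XC.Mem H := by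
  have htt : t⁻¹ = t := by
    rw [inv_eq_iff_mul_eq_one, ← pow_two, ht]
  have huu : u⁻¹ = u ^ 2 := by
    rw [inv_eq_iff_mul_eq_one, ← pow_succ', hu]
  have hform : ∀ h : H, ∃ i j : ℕ, h = u ^ i * t ^ j := by
    intro h
    have hh : h ∈ Subgroup.closure {u, t} := by rw [hgen]; exact Subgroup.mem_top h
    have hconj : ∀ i : ℕ, t * u ^ i = u ^ (2 * i) * t := by
      intro i
      have h1 : t * u ^ i * t⁻¹ = u ^ (2 * i) := by
        rw [← conj_pow, hc, huu, pow_mul]
      rw [← h1]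
      group
    have hmul_u : ∀ y : H, (∃ i j : ℕ, y = u ^ i * t ^ j) → ∃ i j : ℕ, u * y = u ^ i * t ^ j := by
      rintro y ⟨i, j, rfl⟩
      exact ⟨i + 1, j, by rw [pow_succ', mul_assoc]⟩
    have hmul_t : ∀ y : H, (∃ i j : ℕ, y = u ^ i * t ^ j) → ∃ i j : ℕ, t * y = u ^ i * t ^ j := by
      rintro y ⟨i, j, rfl⟩
      exact ⟨2 * i, j + 1, by rw [← mul_assoc, hconj, pow_succ', mul_assoc]⟩
    induction hh using Subgroup.closure_induction_left with
    | one => exact ⟨0, 0, by simp⟩
    | mul_left x hx y hy ih =>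
      rcases hx with rfl | rfl
      · exact hmul_u y ih
      · exact hmul_t y ih
    | inv_mul_cancel x hx y hy ih =>
      rcases hx with rfl | rfl
      · rw [huu, pow_two, mul_assoc]
        exact hmul_u _ (hmul_u y ih)
      · rw [htt]
        exact hmul_t y ih
  have hsurj : Function.Surjective (fun p : Fin 3 × Fin 2 => u ^ p.1.val * t ^ p.2.val) := by
    intro h
    obtain ⟨i, j, rfl⟩ := hform h
    refine ⟨(⟨i % 3, Nat.mod_lt _ (by norm_num)⟩, ⟨j % 2, Nat.mod_lt _ (by norm_num)⟩), ?_⟩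
    have h1 : u ^ (i % 3) = u ^ i := by
      conv_rhs => rw [← Nat.mod_add_div i 3, pow_add, pow_mul, hu, one_pow, mul_one]
    have h2 : t ^ (j % 2) = t ^ j := by
      conv_rhs => rw [← Nat.mod_add_div j 2, pow_add, pow_mul, ht, one_pow, mul_one]
    change u ^ (i % 3) * t ^ (j % 2) = u ^ i * t ^ j
    rw [h1, h2]
  have hcard : Nat.card H ≤ 6 := by
    have h1 := Nat.card_le_card_of_surjective _ hsurj
    have h2 : Nat.card (Fin 3 × Fin 2) = 6 := by simp
    omega
  refine ⟨inferInstance, inferInstance, ?_⟩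
  intro Q _ f hf hbad
  have hQ : Finite Q := Finite.of_surjective f hf
  have hQ6 : Nat.card Q ≤ 6 := (Nat.card_le_card_of_surjective f hf).trans hcard
  rcases hbad with ⟨ho, hne⟩ | h10 | ⟨⟨e⟩⟩
  · have hodd_sq : ∀ x : Q, x ^ 2 = 1 → x = 1 := by
      intro x hx
      have h1 : orderOf x ∣ 2 := orderOf_dvd_of_pow_eq_one hx
      have h2 : orderOf x ∣ Nat.card Q := orderOf_dvd_natCard x
      have h3 : Nat.Coprime 2 (Nat.card Q) := Nat.coprime_two_left.mpr ho
      have h4 : orderOf x = 1 := Nat.eq_one_of_dvd_coprimes h3 h1 h2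
      exact orderOf_eq_one_iff.mp h4
    have h1 : f t = 1 := hodd_sq _ (by rw [← map_pow, ht, map_one])
    have h2 : f u = 1 := by
      apply hodd_sq
      have h3 : f u = (f u)⁻¹ := by
        have := congrArg f hc
        rw [map_mul, map_mul, map_inv, map_inv, h1, one_mul, inv_one, mul_one] at this
        exact this
      rw [pow_two]
      nth_rewrite 2 [h3]
      exact mul_inv_cancel _
    have h4 : f = 1 := by
      have h5 : Set.EqOn f (1 : H →* Q) {u, t} := by
        rintro z (rfl | rfl)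
        · exact h2
        · exact h1
      have h6 := MonoidHom.eqOn_closure h5
      ext z
      exact h6 (by rw [hgen]; exact Subgroup.mem_top z)
    have h7 : Subsingleton Q := by
      refine ⟨fun a b => ?_⟩
      obtain ⟨x, rfl⟩ := hf a
      obtain ⟨y, rfl⟩ := hf b
      rw [h4]
      rfl
    exact hne (Nat.card_of_subsingleton (1 : Q))
  · omega
  · have := Nat.card_congr e.toEquiv
    rw [card_GG] at this
    omega

theorem N_exp {g : GG} (hg : g ∈ N) : g ^ 3 = 1 := by
  obtain ⟨h1, h2⟩ := mem_N.mp hg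
  rw [pow_succ, pow_two]
  apply GG.ext
  · simp [h1]
  · simp [h1, h2]
  · funext x
    simp only [mul_v, mul_a, mul_b, h1, h2, one_v]
    simp only [Units.val_one, one_mul, add_zero, mul_zero]
    generalize g.v x = c
    revert c
    decide

/-- An involution inverts the elements `[t, n]` with `n ∈ N`; the subgroup generated by the two
lies in the class. -/
theorem exists_six {G : Type} [Group G] [Finite G] [Group.IsSolvable G] (ι : G →* GG)
    (hι : Function.Injective ι) (hN : N ≤ ι.range) (t : G) (ht : t ^ 2 = 1) (htN : ι t ∉ N) :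
    ∃ u : G, u ≠ 1 ∧ ι u ∈ N ∧ XC.Mem (Subgroup.closure {u, t} : Subgroup G) := by
  obtain ⟨n, hn, hne⟩ := exists_noncomm htN
  obtain ⟨m, rfl⟩ := hN hn
  have hconj : ι (t * m * t⁻¹) ∈ N := by
    rw [map_mul, map_mul, map_inv]
    exact (inferInstance : N.Normal).conj_mem _ hn _
  have huN : ι (t * m * t⁻¹ * m⁻¹) ∈ N := by
    rw [map_mul ι (t * m * t⁻¹), map_inv]
    exact N.mul_mem hconj (N.inv_mem hn)
  have hcomm : (t * m * t⁻¹) * m = m * (t * m * t⁻¹) := by
    apply hι
    rw [map_mul, map_mul ι m]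
    exact N_comm hconj hn
  refine ⟨t * m * t⁻¹ * m⁻¹, ?_, huN, ?_⟩
  · intro h
    apply hne
    have h1 := mul_inv_eq_one.mp h
    rw [← map_inv, ← map_mul, ← map_mul, h1]
  · set u := t * m * t⁻¹ * m⁻¹ with hu
    have hu3 : u ^ 3 = 1 := by
      apply hι
      rw [map_pow, map_one]
      exact N_exp huN
    have htt : t⁻¹ = t := by
      rw [inv_eq_iff_mul_eq_one, ← pow_two, ht]
    have hinv : t * u * t⁻¹ = u⁻¹ := by
      have h1 : t * u * t⁻¹ = (t * t) * m * (t * t)⁻¹ * (t * m * t⁻¹)⁻¹ := by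
        rw [hu]; group
      rw [h1, ← pow_two, ht]
      have h2 : u⁻¹ = m * (t * m * t⁻¹)⁻¹ := by rw [hu]; group
      rw [h2]
      simp
    have hmu : u ∈ Subgroup.closure ({u, t} : Set G) := Subgroup.subset_closure (by simp)
    have hmt : t ∈ Subgroup.closure ({u, t} : Set G) := Subgroup.subset_closure (by simp)
    refine XC_of_six (⟨u, hmu⟩ : Subgroup.closure ({u, t} : Set G)) ⟨t, hmt⟩ ?_ ?_ ?_ ?_
    · have h1 := Subgroup.closure_closure_coe_preimage (k := ({u, t} : Set G))
      rw [← h1]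
      congr 1
      ext ⟨x, hx⟩
      simp
    · exact Subtype.ext hu3
    · exact Subtype.ext ht
    · exact Subtype.ext hinv

/-- If a subgroup `H` of `GG` meets `N` nontrivially and `tau` lies in `H N` then `N ≤ H`. -/
theorem N_le_of_sup {H : Subgroup GG} (h1 : ∃ g ∈ H, g ∈ N ∧ g ≠ 1) (h2 : tau ∈ H ⊔ N) :
    N ≤ H := by
  apply N_le_of h1
  intro g hg hgN
  obtain ⟨h, hh, n, hn, hhn⟩ := Subgroup.mem_sup_of_normal_right.mp h2
  rw [← hhn]
  have h3 : h * n * g * (h * n)⁻¹ = h * (n * g) * n⁻¹ * h⁻¹ := by group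
  rw [h3, N_comm hn hgN]
  have h4 : h * (g * n) * n⁻¹ * h⁻¹ = h * g * h⁻¹ := by group
  rw [h4]
  exact H.mul_mem (H.mul_mem hh hg) (H.inv_mem hh)

theorem XC_GG_quot_N : XC.Mem (GG ⧸ N) :=
  XC.mem_of_iso _ _ (QuotientGroup.quotientKerEquivRange prj).symm XC_M

/-- The involution `x ↦ -x`. -/
def t0 : GG := ⟨-1, 0, fun _ => 0, by simp⟩

theorem t0_sq : t0 ^ 2 = 1 := by
  rw [pow_two]
  apply GG.ext
  · simp [t0]
  · simp [t0]
  · funext x; simp [t0]

theorem t0_not_mem : t0 ∉ N := by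
  intro h
  have h1 : (-1 : (ZMod 5)ˣ) = 1 := (mem_N.mp h).1
  revert h1
  decide

/-- The group `3^4 : F_20` has a maximal `XC`-subgroup that is not an `XC`-projector. -/
theorem exists_maximal_not_projector :
    ∃ H : Subgroup GG, IsMaximalXSubgroup XC H ∧ ¬ IsProjector XC H := by
  obtain ⟨u, hu1, huN, hmem⟩ := exists_six (MonoidHom.id GG) Function.injective_id
    (by intro x _; exact ⟨x, rfl⟩) t0 t0_sq t0_not_mem
  -- a maximal `XC`-subgroup above the symmetric group of degree three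
  obtain ⟨H, hle, hmax⟩ := Set.Finite.exists_le_maximal
    (s := {K : Subgroup GG | XC.Mem K}) (Set.toFinite _) hmem
  have hH : IsMaximalXSubgroup XC H :=
    ⟨hmax.1, fun K hK hHK => le_antisymm hHK (hmax.2 hK hHK)⟩
  refine ⟨H, hH, fun hproj => ?_⟩
  have h1 := hproj N
  have h2 : H.map (QuotientGroup.mk' N) = ⊤ := by
    apply h1.2 ⊤ _ le_top
    exact XC.mem_of_iso _ _ Subgroup.topEquiv.symm XC_GG_quot_N
  have h3 : tau ∈ H ⊔ N := by
    have h4 : (QuotientGroup.mk' N tau) ∈ H.map (QuotientGroup.mk' N) := by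
      rw [h2]; exact Subgroup.mem_top _
    have h5 : tau ∈ (H.map (QuotientGroup.mk' N)).comap (QuotientGroup.mk' N) := h4
    rw [Subgroup.comap_map_eq, QuotientGroup.ker_mk'] at h5
    exact h5
  have h6 : N ≤ H := by
    refine N_le_of_sup ⟨u, hle (Subgroup.subset_closure (by simp)), huN, hu1⟩ h3
  have h7 : H = ⊤ := by
    have h8 : (H.map (QuotientGroup.mk' N)).comap (QuotientGroup.mk' N) = H :=
      Subgroup.comap_map_eq_self (by rw [QuotientGroup.ker_mk']; exact h6)
    rw [← h8, h2, Subgroup.comap_top]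
  have h9 : XC.Mem H := hH.1
  rw [h7] at h9
  exact XC_not_GG (XC.mem_of_iso _ _ Subgroup.topEquiv h9)

end Pool.Agent.Helper36.Schunck
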