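import Mathlib
import Pool.Agent.Helper36.Schunck.Main

set_option autoImplicit false

namespace Pool.Agent.Helper36.Schunck

open GG

instance fact5 : Fact (Nat.Prime 5) := ⟨by norm_num⟩

/-- The class of finite 5-groups. -/
abbrev YC : SolClass := pClass 5

/-- The normal subgroup `3^4 : D_10` of index two. -/
def L : Subgroup GG := ((powMonoidHom 2 : (ZMod 5)ˣ →* (ZMod 5)ˣ).comp chi).ker

instance : L.Normal := MonoidHom.normal_ker _

theorem mem_L {g : GG} : g ∈ L ↔ g.a ^ 2 = 1 := Iff.rfl

theorem N_le_L : N ≤ L := by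
  intro g hg
  rw [mem_L, (mem_N.mp hg).1, one_pow]

theorem tau_mem_L : tau ∈ L := by
  rw [mem_L]
  rfl

theorem L_index : L.index = 2 := by
  rw [Subgroup.index_eq_two_iff]
  let c : (ZMod 5)ˣ := ⟨2, 3, by decide, by decide⟩
  refine ⟨⟨c, 0, fun _ => 0, by simp⟩, fun b => ?_⟩
  rw [mem_L, mem_L]
  have h : ∀ u : (ZMod 5)ˣ, Xor ((u * c) ^ 2 = 1) (u ^ 2 = 1) := by decide
  exact h b.a

theorem card_quot_L : Nat.card (GG ⧸ L) = 2 := L_index

theorem card_L : Nat.card L = 810 := by
  have h := Subgroup.card_eq_card_quotient_mul_card_subgroup L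
  rw [card_GG, card_quot_L] at h
  omega

/-- The subgroup `N` inside `L`. -/
def NL : Subgroup L := N.subgroupOf L

instance : NL.Normal := by
  unfold NL
  infer_instance

theorem card_NL : Nat.card NL = 81 := by
  rw [NL, Nat.card_congr (Subgroup.subgroupOfEquivOfLe N_le_L).toEquiv, card_N]

theorem card_quot_NL : Nat.card (L ⧸ NL) = 10 := by
  have h := Subgroup.card_eq_card_quotient_mul_card_subgroup NL
  rw [card_L, card_NL] at h
  omega

theorem mem_NL {g : L} : g ∈ NL ↔ (g : GG) ∈ N := Subgroup.mem_subgroupOf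

instance : Group.IsSolvable L := inferInstance

/-- An `XC`-projector of `L` has image of order two modulo `N`. -/
theorem proj_card_two {S : Subgroup L} (hS : IsProjector XC S) :
    Nat.card (S.map (QuotientGroup.mk' NL)) = 2 := by
  have hmax := hS NL
  set P := S.map (QuotientGroup.mk' NL) with hP
  have hfin : Finite (L ⧸ NL) := inferInstance
  have hdvd : Nat.card P ∣ 10 := by
    rw [← card_quot_NL]
    exact Subgroup.card_subgroup_dvd_card P
  have hle : Nat.card P ≤ 10 := Nat.le_of_dvd (by norm_num) hdvd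
  have hnb := XC_not_bad hmax.1
  have h5 : Nat.card P ≠ 5 := fun h => hnb (Or.inl ⟨by rw [h]; decide, by rw [h]; norm_num⟩)
  have h10 : Nat.card P ≠ 10 := fun h => hnb (Or.inr (Or.inl h))
  have h1 : Nat.card P ≠ 1 := by
    intro h
    have : Fact (Nat.Prime 2) := ⟨by norm_num⟩
    obtain ⟨x, hx⟩ := exists_prime_orderOf_dvd_card' (G := L ⧸ NL) 2
      (by rw [card_quot_NL]; norm_num)
    have hc2 : Nat.card (Subgroup.zpowers x) = 2 := by rw [Nat.card_zpowers, hx]
    have hle : P ≤ Subgroup.zpowers x := by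
      rw [Subgroup.eq_bot_of_card_eq P h]
      exact bot_le
    have h2 := hmax.2 (Subgroup.zpowers x) (XC_of_card_le_two _ (Or.inr hc2)) hle
    rw [h2, hc2] at h
    omega
  have hall : ∀ n : ℕ, n ≤ 10 → n ∣ 10 → n ≠ 1 → n ≠ 5 → n ≠ 10 → n = 2 := by decide
  exact hall _ hle hdvd h1 h5 h10

/-- An `XC`-projector of `L` meets `N` nontrivially. -/
theorem proj_inf {S : Subgroup L} (hS : IsProjector XC S) : ∃ g ∈ S, (g : GG) ∈ N ∧ g ≠ 1 := by
  by_contra hno
  push Not at hno
  -- `S` has order two
  have hinf : ∀ g ∈ S, g ∈ NL → g = 1 := fun g hg hgN => hno g hg (mem_NL.mp hgN)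
  have hcard : Nat.card S = 2 := by
    rw [← proj_card_two hS]
    have hinj : Function.Injective ((QuotientGroup.mk' NL).subgroupMap S) := by
      rw [← MonoidHom.ker_eq_bot_iff, eq_bot_iff]
      intro x hx
      have h1 : (QuotientGroup.mk' NL) (x : L) = 1 := congrArg Subtype.val hx
      have h2 : (x : L) ∈ NL := (QuotientGroup.eq_one_iff _).mp h1
      have h3 : (x : L) = 1 := hinf x x.2 h2
      exact Subtype.ext h3
    exact Nat.card_congr (Equiv.ofBijective _
      ⟨hinj, (QuotientGroup.mk' NL).subgroupMap_surjective S⟩)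
  have : Fact (Nat.Prime 2) := ⟨by norm_num⟩
  obtain ⟨t, ht⟩ := exists_prime_orderOf_dvd_card' (G := S) 2 (by rw [hcard])
  have ht2 : (t : L) ^ 2 = 1 := by
    have h1 : t ^ 2 = 1 := by rw [← ht]; exact pow_orderOf_eq_one t
    have := congrArg Subtype.val h1
    simpa using this
  have ht1 : (t : L) ≠ 1 := by
    intro h
    have : t = 1 := Subtype.ext h
    rw [this, orderOf_one] at ht
    omega
  have htN : ((t : L) : GG) ∉ N := fun h => ht1 (hno t t.2 h)
  obtain ⟨u, hu1, huN, hmem⟩ := exists_six L.subtype L.subtype_injective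
    (by rw [Subgroup.range_subtype]; exact N_le_L) (t : L) ht2 htN
  have hSt : S ≤ Subgroup.closure {u, (t : L)} := by
    have h1 : Subgroup.zpowers (t : L) ≤ S := Subgroup.zpowers_le.mpr t.2
    have h2 : Subgroup.zpowers (t : L) = S := by
      apply Subgroup.eq_of_le_of_card_ge h1
      rw [Nat.card_zpowers, hcard, Subgroup.orderOf_coe, ht]
    refine h2.symm.le.trans ?_
    rw [Subgroup.zpowers_le]
    exact Subgroup.subset_closure (by simp)
  have h3 := hS.isMaximal.2 _ hmem hSt
  have h4 : u ∈ S := by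
    rw [h3]
    exact Subgroup.subset_closure (by simp)
  exact hu1 (hno u h4 huN)

/-- A `YC`-projector of `L` has image of order divisible by five modulo `N`. -/
theorem proj_five {T : Subgroup L} (hT : IsProjector YC T) :
    5 ∣ Nat.card (T.map (QuotientGroup.mk' NL)) := by
  have hmax := hT NL
  set P := T.map (QuotientGroup.mk' NL) with hP
  have hfin : Finite (L ⧸ NL) := inferInstance
  rcases hmax.1.2.card_eq_or_dvd with h | h
  · exfalso
    obtain ⟨x, hx⟩ := exists_prime_orderOf_dvd_card' (G := L ⧸ NL) 5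
      (by rw [card_quot_NL]; norm_num)
    have hc5 : Nat.card (Subgroup.zpowers x) = 5 := by rw [Nat.card_zpowers, hx]
    have hle : P ≤ Subgroup.zpowers x := by
      rw [Subgroup.eq_bot_of_card_eq P h]
      exact bot_le
    have hmem : YC.Mem (Subgroup.zpowers x) :=
      ⟨inferInstance, IsPGroup.of_card (n := 1) (by rw [hc5]; norm_num)⟩
    have h2 := hmax.2 (Subgroup.zpowers x) hmem hle
    rw [h2, hc5] at h
    omega
  · exact h

/-- `L` lies in the join of the two classes. -/
theorem L_in_join : InJoin XC YC L := by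
  refine ⟨inferInstance, inferInstance, ?_⟩
  intro S T hS hT
  set H := S ⊔ T with hH
  have hfin : Finite (L ⧸ NL) := inferInstance
  have h10 : H.map (QuotientGroup.mk' NL) = ⊤ := by
    apply Subgroup.eq_top_of_card_eq
    rw [card_quot_NL]
    have h2 : 2 ∣ Nat.card (H.map (QuotientGroup.mk' NL)) := by
      rw [← proj_card_two hS]
      exact Subgroup.card_dvd_of_le (Subgroup.map_mono le_sup_left)
    have h5 : 5 ∣ Nat.card (H.map (QuotientGroup.mk' NL)) :=
      (proj_five hT).trans (Subgroup.card_dvd_of_le (Subgroup.map_mono le_sup_right))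
    have h10 : 10 ∣ Nat.card (H.map (QuotientGroup.mk' NL)) :=
      (by norm_num : Nat.Coprime 2 5).mul_dvd_of_dvd_of_dvd h2 h5
    have h10' : Nat.card (H.map (QuotientGroup.mk' NL)) ∣ 10 := by
      rw [← card_quot_NL]
      exact Subgroup.card_subgroup_dvd_card _
    exact Nat.dvd_antisymm h10' h10
  -- transfer to `GG`
  obtain ⟨g, hgS, hgN, hg1⟩ := proj_inf hS
  have htau : tau ∈ H.map L.subtype ⊔ N := by
    have h4 : (QuotientGroup.mk' NL ⟨tau, tau_mem_L⟩) ∈ H.map (QuotientGroup.mk' NL) := by
      rw [h10]; exact Subgroup.mem_top _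
    have h5 : (⟨tau, tau_mem_L⟩ : L) ∈
        (H.map (QuotientGroup.mk' NL)).comap (QuotientGroup.mk' NL) := h4
    rw [Subgroup.comap_map_eq, QuotientGroup.ker_mk'] at h5
    obtain ⟨h, hh, n, hn, hhn⟩ := Subgroup.mem_sup_of_normal_right.mp h5
    refine Subgroup.mem_sup_of_normal_right.mpr ⟨h, ⟨h, hh, rfl⟩, n, mem_NL.mp hn, ?_⟩
    exact congrArg Subtype.val hhn
  have hNH : N ≤ H.map L.subtype := by
    refine N_le_of_sup ⟨g, ⟨g, ?_, rfl⟩, hgN, ?_⟩ htau
    · exact (le_sup_left : S ≤ S ⊔ T) hgS
    · intro h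
      exact hg1 (Subtype.ext h)
  have hNLH : NL ≤ H := by
    intro x hx
    obtain ⟨y, hy, hyx⟩ := hNH (mem_NL.mp hx)
    have : y = x := Subtype.ext hyx
    rw [← this]
    exact hy
  have h8 : (H.map (QuotientGroup.mk' NL)).comap (QuotientGroup.mk' NL) = H :=
    Subgroup.comap_map_eq_self (by rw [QuotientGroup.ker_mk']; exact hNLH)
  rw [← h8, h10, Subgroup.comap_top]

/-- `GG / L` lies in the join. -/
theorem quot_in_join : InJoin XC YC (GG ⧸ L) := by
  have hmem : XC.Mem (GG ⧸ L) := XC_of_card_le_two _ (Or.inr card_quot_L)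
  refine ⟨hmem.1, hmem.2.1, ?_⟩
  intro S T hS _
  have h1 := hS.isMaximal.2 ⊤ (XC.mem_of_iso _ _ Subgroup.topEquiv.symm hmem) le_top
  rw [h1, top_sup_eq]

/-- The complement `M` is an `XC`-projector of `GG`. -/
theorem M_projector : IsProjector XC M := by
  intro K hK
  refine ⟨mem_map XC_schunck _ M XC_M, ?_⟩
  intro P hP hle
  have hs : Function.Surjective (QuotientGroup.mk' K) := QuotientGroup.mk'_surjective K
  have h1 : M ≤ P.comap (QuotientGroup.mk' K) := Subgroup.map_le_iff_le_comap.mp hle
  rcases eq_or_lt_of_le h1 with h2 | h2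
  · rw [← Subgroup.map_comap_eq_self_of_surjective hs P, ← h2]
  · have h3 : P.comap (QuotientGroup.mk' K) = ⊤ := M_coatom.2 _ h2
    have h4 : P = ⊤ := by
      rw [← Subgroup.map_comap_eq_self_of_surjective hs P, h3]
      exact Subgroup.map_top_of_surjective _ hs
    by_cases hbot : K = ⊥
    · exfalso
      rw [h4] at hP
      have h5 : XC.Mem (GG ⧸ K) := XC.mem_of_iso _ _ Subgroup.topEquiv hP
      have hinj : Function.Bijective (QuotientGroup.mk' K) := by
        refine ⟨?_, hs⟩
        rw [← MonoidHom.ker_eq_bot_iff, QuotientGroup.ker_mk', hbot]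
      exact XC_not_GG (XC.mem_of_iso _ _ (MulEquiv.ofBijective _ hinj).symm h5)
    · have hN : N ≤ K := N_le_of_normal hbot
      rw [h4, eq_top_iff, ← Subgroup.map_top_of_surjective _ hs, ← M_sup_N, Subgroup.map_sup]
      refine sup_le le_rfl ?_
      refine (Subgroup.map_mono hN).trans ?_
      rw [Subgroup.map_le_iff_le_comap]
      intro x hx
      rw [Subgroup.mem_comap, QuotientGroup.mk'_apply, (QuotientGroup.eq_one_iff x).mpr hx]
      exact Subgroup.one_mem _

/-- The Sylow 5-subgroup generated by `tau` is a `YC`-projector of `GG`. -/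
theorem tau_projector : IsProjector YC (Subgroup.zpowers tau) := by
  intro K hK
  have hT : YC.Mem (Subgroup.zpowers tau) :=
    ⟨inferInstance, IsPGroup.of_card (n := 1) (by rw [Nat.card_zpowers, orderOf_tau]; norm_num)⟩
  refine ⟨mem_map (pClass_schunck 5) _ _ hT, ?_⟩
  intro P hP hle
  have hfin : Finite (GG ⧸ K) := inferInstance
  have hq := Subgroup.card_eq_card_quotient_mul_card_subgroup K
  rw [card_GG] at hq
  obtain ⟨k, hk⟩ := IsPGroup.iff_card.mp hP.2
  have hPdvd : Nat.card P ∣ Nat.card (GG ⧸ K) := Subgroup.card_subgroup_dvd_card P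
  by_cases htau : tau ∈ K
  · have h5 : 5 ∣ Nat.card K := by
      rw [← orderOf_tau]
      exact Subgroup.orderOf_dvd_natCard K htau
    have hn5 : ¬ 5 ∣ Nat.card (GG ⧸ K) := by
      intro h
      have := mul_dvd_mul h h5
      rw [← hq] at this
      norm_num at this
    have hk0 : k = 0 := by
      by_contra hk0
      apply hn5
      refine dvd_trans ?_ hPdvd
      rw [hk]
      exact dvd_pow_self 5 hk0
    have hP1 : P = ⊥ := Subgroup.eq_bot_of_card_eq P (by rw [hk, hk0, pow_zero])
    rw [hP1] at hle ⊢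
    exact le_bot_iff.mp hle
  · have hk1 : Nat.card P ∣ 5 := by
      have hk' : k ≤ 1 := by
        by_contra hk'
        push Not at hk'
        have h25 : 25 ∣ Nat.card P := by
          rw [hk]
          exact pow_dvd_pow 5 hk'
        have := (h25.trans hPdvd).trans ⟨_, hq⟩
        norm_num at this
      rw [hk]
      calc 5 ^ k ∣ 5 ^ 1 := pow_dvd_pow 5 hk'
        _ = 5 := by norm_num
    have hQ : 5 ∣ Nat.card ((Subgroup.zpowers tau).map (QuotientGroup.mk' K)) := by
      have h1 := (mem_map (pClass_schunck 5) (QuotientGroup.mk' K) _ hT).2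
      rcases h1.card_eq_or_dvd with h | h
      · exfalso
        apply htau
        have h2 := Subgroup.eq_bot_of_card_eq _ h
        have h3 : (QuotientGroup.mk' K) tau ∈
            (Subgroup.zpowers tau).map (QuotientGroup.mk' K) :=
          ⟨tau, Subgroup.mem_zpowers _, rfl⟩
        rw [h2] at h3
        exact (QuotientGroup.eq_one_iff _).mp h3
      · exact h
    apply Subgroup.eq_of_le_of_card_ge hle
    exact (Nat.le_of_dvd (by norm_num) hk1).trans
      (Nat.le_of_dvd Nat.card_pos hQ)

/-- `GG` does not lie in the join. -/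
theorem GG_not_in_join : ¬ InJoin XC YC GG := by
  rintro ⟨-, -, h⟩
  have h1 := h M (Subgroup.zpowers tau) M_projector tau_projector
  rw [sup_eq_left.mpr (Subgroup.zpowers_le.mpr tau_mem_M)] at h1
  exact M_coatom.1 h1

/-- The join of the two classes is not equal to its square. -/
theorem join_not_square : ¬ SquareEq (InJoin XC YC) := by
  intro h
  apply GG_not_in_join
  exact (h GG).mp ⟨inferInstance, inferInstance, L, inferInstance, L_in_join, quot_in_join⟩

end Pool.Agent.Helper36.Schunck
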